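import Pool.Agent.Work.MP_65e34f.Basic

/-!
# MP_65e34f_al, block D3b: numerical classification of subgroups with parabolic elements
-/

namespace Pool.FG.helper46

open Matrix Pool.FG
open scoped LinearAlgebra.Projectivization

/-! ### arithmetic -/

lemma d3b_arith (a k r n n1 e : ℕ) (ha : 2 ≤ a) (hk : 1 ≤ k) (hr : 1 ≤ r) (hn : n = 1 + r * a)
    (hka : k ∣ a - 1) (h1 : n1 = 2 + n * (a - 2)) (he : n1 * e = n * a * k) :
    (a = 2 ∧ n1 = 2) ∨ (3 ≤ a ∧ r = 1 ∧ (k = a - 1 ∨ 2 * k = a - 1)) ∨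
      (a = 3 ∧ r = 3 ∧ k = 2 ∧ e = 5) := by
  obtain ⟨b, rfl⟩ : ∃ b, a = b + 2 := ⟨a - 2, by omega⟩
  have hb2 : b + 2 - 2 = b := by omega
  have hb1 : b + 2 - 1 = b + 1 := by omega
  rw [hb2] at h1
  rw [hb1] at hka ⊢
  rcases Nat.eq_zero_or_pos b with hb | hb
  · left
    subst hb
    simp at h1
    exact ⟨rfl, h1⟩
  · right
    set m : ℕ := 1 + r * b with hm
    have hnm : n = m + 2 * r := by rw [hn, hm]; ring
    have hn1 : n1 = (b + 2) * m := by rw [h1, hn, hm]; ring
    have hem : e * m = (m + 2 * r) * k := by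
      have h2 : (b + 2) * (e * m) = (b + 2) * ((m + 2 * r) * k) := by
        calc (b + 2) * (e * m) = n1 * e := by rw [hn1]; ring
          _ = n * (b + 2) * k := he
          _ = _ := by rw [hnm]; ring
      exact Nat.eq_of_mul_eq_mul_left (by omega) h2
    have hdvd : m ∣ 2 * k := by
      have h2 : m ∣ r * (2 * k) := by
        have h3 : m ∣ m * k + r * (2 * k) := by
          have : m * k + r * (2 * k) = e * m := by rw [hem]; ring
          rw [this]
          exact Dvd.intro_left e rfl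
        exact (Nat.dvd_add_right (Dvd.intro k rfl)).1 h3
      have hcop : Nat.Coprime m r := by
        rw [hm]
        have : Nat.Coprime (1 + r * b) r ↔ Nat.Coprime 1 r := by
          rw [Nat.coprime_add_mul_left_left]
        rw [this]
        exact Nat.coprime_one_left r
      exact hcop.dvd_of_dvd_mul_left h2
    obtain ⟨w, hw⟩ := hdvd
    have hkle : k ≤ b + 1 := Nat.le_of_dvd (by omega) hka
    have hmge : b + 1 ≤ m := by rw [hm]; nlinarith
    have hw2 : w ≤ 2 := by
      by_contra h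
      push Not at h
      nlinarith
    have hw0 : w ≠ 0 := by
      rintro rfl
      omega
    have hrb : r = 1 ∨ r = 2 ∨ 3 ≤ r := by omega
    interval_cases w
    · exact absurd rfl hw0
    · -- 2k = m
      rw [mul_one] at hw
      rcases hrb with h | h | h
      · left
        refine ⟨by omega, h, Or.inr ?_⟩
        rw [hw, hm, h]; ring
      · exfalso
        rw [hm, h] at hw
        omega
      · right
        have h3 : r * b ≤ 2 * b + 1 := by omega
        have hb1 : b = 1 := by nlinarith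
        subst hb1
        have hr3 : r = 3 := by omega
        subst hr3
        have hk2 : k = 2 := by omega
        subst hk2
        refine ⟨rfl, rfl, rfl, ?_⟩
        rw [hm] at hem
        omega
    · -- k = m
      have hkm : k = m := by omega
      left
      have hrb1 : r * b ≤ b := by omega
      have hr1 : r = 1 := by nlinarith
      refine ⟨by omega, hr1, Or.inl ?_⟩
      rw [hkm, hm, hr1]; ring

/-! ### the Burnside equation -/

section B
variable {K : Type} [Field K] (H : Subgroup (SL K))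

/-- the scalars of `H` -/
def zH : Subgroup H where
  carrier := {h | Sc h.1}
  one_mem' := Sc_one
  mul_mem' := fun ha hb => Sc.mul ha hb
  inv_mem' := fun ha => Sc.inv ha

lemma mem_zH (h : H) : h ∈ zH H ↔ Sc h.1 := Iff.rfl

lemma card_zH (h1 : -1 ∈ H) : Nat.card (zH H) = Set.ncard {x : SL K | Sc x} := by
  rw [← Nat.card_coe_set_eq]
  exact Nat.card_congr
    { toFun := fun x => ⟨x.1.1, x.2⟩
      invFun := fun x => ⟨⟨x.1, sc_mem h1 x.2⟩, x.2⟩
      left_inv := fun x => rfl
      right_inv := fun x => rfl }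

instance zH_normal : (zH H).Normal := by
  constructor
  intro n hn g
  rw [mem_zH] at hn ⊢
  exact Sc_conj_iff.2 hn

/-- points fixed by a nonscalar element -/
def yH : Set (PF K) := {P | ∃ h ∈ H, ¬ Sc h ∧ h • P = P}

lemma yH_stable (g : H) (y : PF K) (hy : y ∈ yH H) : g • y ∈ yH H := by
  obtain ⟨h, hH, hs, hf⟩ := hy
  refine ⟨g.1 * h * g.1⁻¹, H.mul_mem (H.mul_mem g.2 hH) (H.inv_mem g.2), ?_, ?_⟩
  · rwa [Sc_conj_iff]
  · change (g.1 * h * g.1⁻¹) • (g.1 • y) = g.1 • y
    rw [smul_smul, inv_mul_cancel_right, ← smul_smul, hf]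

lemma om_stable (g : H) (y : PF K) (hy : y ∈ Om H) : g • y ∈ Om H := by
  obtain ⟨h, hH, hs, hf⟩ := hy
  refine ⟨g.1 * h * g.1⁻¹, H.mul_mem (H.mul_mem g.2 hH) (H.inv_mem g.2), ?_, ?_⟩
  · refine ⟨?_, ?_⟩
    · rw [Sc_conj_iff]; exact hs.1
    · rw [tr_conj]; exact hs.2
  · change (g.1 * h * g.1⁻¹) • (g.1 • y) = g.1 • y
    rw [smul_smul, inv_mul_cancel_right, ← smul_smul, hf]

lemma om_sub : Om H ⊆ yH H := by
  rintro P ⟨h, hH, hp, hf⟩
  exact ⟨h, hH, hp.1, hf⟩

variable [Finite K]

open Classical in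
lemma fix_card (h0 : Stmt_D0) (g : H) (hg : g ∉ zH H) :
    Set.ncard {x | x ∈ yH H ∧ g • x = x} = if Par g.1 then 1 else 2 := by
  have h1 : {x : PF K | x ∈ yH H ∧ g • x = x} = {x | g.1 • x = x} := by
    ext x
    constructor
    · rintro ⟨_, h⟩; exact h
    · intro h; exact ⟨⟨g.1, g.2, hg, h⟩, h⟩
  rw [h1]
  obtain ⟨_, hp, hn⟩ := h0 K
  split_ifs with h2
  · obtain ⟨P, hP⟩ := hp g.1 h2
    have : {x : PF K | g.1 • x = x} = {P} := by ext x; exact hP x
    rw [this, Set.ncard_singleton]
  · obtain ⟨P, P', hPP, hP⟩ := hn g.1 hg h2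
    have : {x : PF K | g.1 • x = x} = {P, P'} := by ext x; exact hP x
    rw [this, Set.ncard_pair hPP]

lemma yH_finite (h0 : Stmt_D0) : (yH H).Finite := by
  classical
  obtain ⟨_, hp, hn⟩ := h0 K
  have h1 : yH H ⊆ ⋃ h : {h : SL K // ¬ Sc h}, {x : PF K | h.1 • x = x} := by
    rintro P ⟨h, _, hs, hf⟩
    exact Set.mem_iUnion.2 ⟨⟨h, hs⟩, hf⟩
  refine (Set.finite_iUnion fun h => ?_).subset h1
  by_cases h2 : Par h.1
  · obtain ⟨P, hP⟩ := hp h.1 h2
    have : {x : PF K | h.1 • x = x} = {P} := by ext x; exact hP x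
    rw [this]; exact Set.finite_singleton P
  · obtain ⟨P, P', hPP, hP⟩ := hn h.1 h.2 h2
    have : {x : PF K | h.1 • x = x} = {P, P'} := by ext x; exact hP x
    rw [this]; exact Set.toFinite _

lemma fix_sum (h0 : Stmt_D0) :
    (∑ᶠ g : {g : H // g ∉ zH H}, Set.ncard {x | x ∈ yH H ∧ g.1 • x = x}) +
      Set.ncard {h : SL K | h ∈ H ∧ Par h} + 2 * Nat.card (zH H) = 2 * Nat.card H := by
  classical
  have : Fintype {g : H // g ∉ zH H} := Fintype.ofFinite _
  rw [finsum_eq_sum_of_fintype]
  have h1 : ∀ g : {g : H // g ∉ zH H}, Set.ncard {x | x ∈ yH H ∧ g.1 • x = x} =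
      if Par g.1.1 then 1 else 2 := fun g => fix_card H h0 g.1 g.2
  simp only [h1]
  have h2 : Set.ncard {h : SL K | h ∈ H ∧ Par h} =
      ∑ g : {g : H // g ∉ zH H}, if Par g.1.1 then 1 else 0 := by
    have h3 : {h : SL K | h ∈ H ∧ Par h} =
        (fun g : {g : H // g ∉ zH H} => g.1.1) '' {g | Par g.1.1} := by
      ext h
      constructor
      · rintro ⟨hH, hp⟩
        exact ⟨⟨⟨h, hH⟩, hp.1⟩, hp, rfl⟩
      · rintro ⟨g, hg, rfl⟩
        exact ⟨g.1.2, hg⟩
    rw [h3, Set.ncard_image_of_injective]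
    · rw [Set.ncard_eq_toFinset_card', Set.toFinset_ofPred, Finset.card_filter]
    · intro g g' hgg
      exact Subtype.ext (Subtype.ext hgg)
  have h4 : Nat.card H = Nat.card (zH H) + Nat.card {g : H // g ∉ zH H} := by
    rw [← Nat.card_sum]
    exact Nat.card_congr (Equiv.sumCompl (fun g => g ∈ zH H)).symm
  rw [h2, ← Finset.sum_add_distrib, h4]
  have h5 : ∀ g : {g : H // g ∉ zH H}, ((if Par g.1.1 then 1 else 2) +
      (if Par g.1.1 then 1 else 0)) = 2 := by
    intro g
    split_ifs <;> rfl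
  simp only [h5, Finset.sum_const, Finset.card_univ, Nat.card_eq_fintype_card, smul_eq_mul]
  ring

lemma stab_two (h0 : Stmt_D0) (P : PF K) (hP : P ∈ yH H) :
    Nat.card (zH H) ∣ Nat.card (MulAction.stabilizer H P) ∧
      2 * Nat.card (zH H) ≤ Nat.card (MulAction.stabilizer H P) := by
  have hle : zH H ≤ MulAction.stabilizer H P := by
    intro h hh
    exact (h0 K).1 h.1 P hh
  have hd := Subgroup.card_dvd_of_le hle
  refine ⟨hd, ?_⟩
  obtain ⟨c, hc⟩ := hd
  have hzpos : 0 < Nat.card (zH H) := Nat.card_pos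
  have hspos : 0 < Nat.card (MulAction.stabilizer H P) := Nat.card_pos
  have hc0 : c ≠ 0 := by
    rintro rfl
    omega
  have hc1 : c ≠ 1 := by
    rintro rfl
    rw [mul_one] at hc
    have heq := Subgroup.eq_of_le_of_card_ge hle hc.le
    obtain ⟨h, hH, hs, hf⟩ := hP
    have hmem : (⟨h, hH⟩ : H) ∈ MulAction.stabilizer H P := hf
    rw [← heq] at hmem
    exact hs hmem
  rw [hc, mul_comm]
  exact Nat.mul_le_mul_left _ (by omega)

/-- the nonparabolic orbit -/
lemma d3b_eq (h0 : Stmt_D0) (hO : Stmt_ORB) (h1 : -1 ∈ H) (z a k r n : ℕ)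
    (hz : z = Set.ncard {x : SL K | Sc x}) (ha : 2 ≤ a) (hk : 1 ≤ k) (hr : 1 ≤ r)
    (hn : n = 1 + r * a) (hOm : (Om H).ncard = n)
    (htr : ∀ P ∈ Om H, ∀ Q ∈ Om H, ∃ h ∈ H, h • P = Q)
    (hH : Nat.card H = z * n * a * k)
    (hPar : Set.ncard {h : SL K | h ∈ H ∧ Par h} = z * n * (a - 1)) :
    ∃ P1 : PF K, P1 ∈ yH H ∧ (MulAction.orbit H P1).ncard = 2 + n * (a - 2) ∧
      (∀ Q ∈ yH H, Q ∈ Om H ∨ Q ∈ MulAction.orbit H P1) := by
  classical
  have hzc : Nat.card (zH H) = z := by rw [card_zH H h1, hz]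
  have hzpos : 0 < z := by rw [← hzc]; exact Nat.card_pos
  obtain ⟨t, y, hy, huniq, hcard, hsum⟩ := hO H (PF K) (zH H) (yH H)
    (fun w hw P => (h0 K).1 w.1 P hw) (yH_finite H h0) (fun g P hP => yH_stable H g P hP)
  have hfs := fix_sum H h0
  rw [hPar, hzc] at hfs
  rw [hzc] at hsum
  obtain ⟨P0, hP0⟩ : (Om H).Nonempty := by
    rw [Set.nonempty_iff_ne_empty]
    intro h
    rw [h, Set.ncard_empty] at hOm
    omega
  obtain ⟨i0, hi0, hi0u⟩ := huniq P0 (om_sub H hP0)
  have horb : MulAction.orbit H (y i0) = Om H := by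
    have e1 : MulAction.orbit H P0 = MulAction.orbit H (y i0) := MulAction.orbit_eq_iff.2 hi0
    rw [← e1]
    ext Q
    constructor
    · rintro ⟨g, rfl⟩
      exact om_stable H g P0 hP0
    · intro hQ
      obtain ⟨h, hh, hPQ⟩ := htr P0 hP0 Q hQ
      exact ⟨⟨h, hh⟩, hPQ⟩
  set g : ℕ := n * a * k with hg
  have hHg : Nat.card H = z * g := by rw [hH, hg]; ring
  set N : Fin t → ℕ := fun i => (MulAction.orbit H (y i)).ncard with hN
  have hN0 : N i0 = n := by simp only [hN, horb, hOm]
  have hNle : ∀ i, 2 * N i ≤ g := by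
    intro i
    have h2 := (stab_two H h0 (y i) (hy i)).2
    rw [hzc] at h2
    have h3 := hcard i
    rw [hHg] at h3
    have h4 : z * (2 * N i) ≤ z * g := by
      rw [← h3]
      calc z * (2 * N i) = N i * (2 * z) := by ring
        _ ≤ N i * Nat.card (MulAction.stabilizer H (y i)) := Nat.mul_le_mul_left _ h2
    exact Nat.le_of_mul_le_mul_left h4 hzpos
  have hS : ∑ i, N i = N i0 + ∑ i ∈ Finset.univ.erase i0, N i :=
    (Finset.add_sum_erase _ _ (Finset.mem_univ i0)).symm
  set S' : ℕ := ∑ i ∈ Finset.univ.erase i0, N i with hS'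
  have hcardE : (Finset.univ.erase i0 : Finset (Fin t)).card + 1 = t := by
    rw [Finset.card_erase_of_mem (Finset.mem_univ i0), Finset.card_univ, Fintype.card_fin]
    have : 0 < t := i0.pos
    omega
  set t' : ℕ := (Finset.univ.erase i0 : Finset (Fin t)).card with ht'
  have hS'le : 2 * S' ≤ t' * g := by
    rw [hS', Finset.mul_sum, ht', ← smul_eq_mul, ← Finset.sum_const]
    exact Finset.sum_le_sum fun i _ => hNle i
  -- the equation
  obtain ⟨b, rfl⟩ : ∃ b, a = b + 2 := ⟨a - 2, by omega⟩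
  have hb2 : b + 2 - 2 = b := by omega
  have hb1 : b + 2 - 1 = b + 1 := by omega
  rw [hb1] at hfs
  rw [hb2]
  have heq : S' + g = t' * g + n * b + 2 := by
    have e1 : z * (∑ i, N i) + (∑ᶠ g : {g : H // g ∉ zH H},
        Set.ncard {x | x ∈ yH H ∧ g.1 • x = x}) = t * (z * g) := by
      rw [← hHg, ← hsum, Finset.mul_sum]
      congr 1
      exact Finset.sum_congr rfl fun i _ => mul_comm _ _
    rw [hHg] at hfs
    rw [hS, hN0, ← hcardE] at e1
    have e2 : z * (n + S' + 2 * g) = z * ((t' + 1) * g + n * (b + 1) + 2) := by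
      nlinarith
    have e3 := Nat.eq_of_mul_eq_mul_left hzpos e2
    nlinarith
  have hn3 : 3 ≤ n := by rw [hn]; nlinarith
  have hgn : n * (b + 2) ≤ g := by
    rw [hg]
    exact Nat.le_mul_of_pos_right _ (by omega)
  have ht1 : t' = 1 := by
    rcases Nat.lt_or_ge t' 2 with h2 | h2
    · interval_cases t'
      · exfalso
        have hS0 : S' = 0 := by omega
        rw [hS0] at heq
        nlinarith
      · rfl
    · exfalso
      have : 2 * g ≤ t' * g := Nat.mul_le_mul_right _ h2
      nlinarith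
  rw [ht1, one_mul] at heq
  have hS'v : S' = 2 + n * b := by omega
  obtain ⟨i1, hi1⟩ := Finset.card_eq_one.1 (ht'.symm.trans ht1)
  refine ⟨y i1, hy i1, ?_, ?_⟩
  · have : S' = N i1 := by rw [hS', hi1, Finset.sum_singleton]
    rw [← hS'v, this]
  · intro Q hQ
    obtain ⟨i, hi, _⟩ := huniq Q hQ
    by_cases h2 : i = i0
    · left
      rw [← horb, ← h2]
      exact hi
    · right
      have : i ∈ (Finset.univ.erase i0 : Finset (Fin t)) :=
        Finset.mem_erase.2 ⟨h2, Finset.mem_univ _⟩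
      rw [hi1, Finset.mem_singleton] at this
      rw [← this]
      exact hi

/-- powers of an element of a stabilizer -/
lemma stab_pow (h0 : Stmt_D0) (m : ℕ) (P : PF K)
    (hm : Nat.card H = Nat.card (zH H) * ((MulAction.orbit H P).ncard * m)) (h : H)
    (hP : h • P = P) : Sc (h.1 ^ m) := by
  have hle : zH H ≤ MulAction.stabilizer H P := by
    intro h hh
    exact (h0 K).1 h.1 P hh
  have e1 := Subgroup.card_mul_index (MulAction.stabilizer H P)
  rw [MulAction.index_stabilizer] at e1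
  have hHpos : 0 < Nat.card H := Nat.card_pos
  have hNpos : 0 < (MulAction.orbit H P).ncard := by
    rcases Nat.eq_zero_or_pos (MulAction.orbit H P).ncard with h | h
    · rw [h, mul_zero] at e1; omega
    · exact h
  have e2 : Nat.card (MulAction.stabilizer H P) = Nat.card (zH H) * m := by
    apply Nat.eq_of_mul_eq_mul_right hNpos
    rw [e1, hm]; ring
  set Z' := (zH H).subgroupOf (MulAction.stabilizer H P) with hZ'
  have e3 : Nat.card Z' = Nat.card (zH H) :=
    Nat.card_congr (Subgroup.subgroupOfEquivOfLe hle).toEquiv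
  have e4 := Subgroup.card_mul_index Z'
  rw [e3, e2] at e4
  have e5 : Z'.index = m := Nat.eq_of_mul_eq_mul_left (Nat.card_pos) e4
  have e6 : (⟨h, hP⟩ : MulAction.stabilizer H P) ^ Z'.index ∈ Z' :=
    Subgroup.pow_index_mem Z' _
  rw [e5] at e6
  have e7 := Subgroup.mem_subgroupOf.1 e6
  rw [mem_zH] at e7
  simpa using e7

end B

/-! ### characteristic three -/

section C
variable {K : Type} [Field K]

lemma pow_unip (u : SL K) (hu : tr u = 2) (n : ℕ) :
    ((u ^ n : SL K) : M2 K) = 1 + (n : K) • ((u : M2 K) - 1) := by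
  induction n with
  | zero => simp
  | succ n ih =>
    have h1 := mul_self_eq u
    rw [hu] at h1
    rw [pow_succ, Matrix.SpecialLinearGroup.coe_mul, ih, add_mul, smul_mul_assoc, sub_mul, h1]
    push_cast
    rw [one_mul, add_smul, two_smul]
    simp only [one_smul]
    abel_nf

lemma cube_unip (h3 : (3 : K) = 0) (u : SL K) (hu : tr u = 2) : u ^ 3 = 1 := by
  apply Subtype.ext
  have h := pow_unip u hu 3
  have h4 : ((3 : ℕ) : K) = 0 := by exact_mod_cast h3
  rw [h4, zero_smul, add_zero] at h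
  exact h

lemma par_cube (h3 : (3 : K) = 0) (h : SL K) (hp : Par h) : Sc (h ^ 3) := by
  have h1 : (tr h - 2) * (tr h + 2) = 0 := by linear_combination hp.2
  rcases mul_eq_zero.1 h1 with h2 | h2
  · left
    exact cube_unip h3 h (sub_eq_zero.1 h2)
  · have h4 : tr (-h) = 2 := by rw [tr_neg]; linear_combination -h2
    have h5 := cube_unip h3 (-h) h4
    rw [← Sc_neg_iff]
    left
    rw [← h5, Odd.neg_pow (by decide)]

lemma six_two (h0 : Stmt_D0) [Finite K] (h3 : (3 : K) = 0) (x : SL K) (P P' : PF K) (hPP : P ≠ P')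
    (hP : x • P = P) (hP' : x • P' = P') (h6 : Sc (x ^ 6)) : Sc (x ^ 2) := by
  by_contra hns
  set y := x ^ 2 with hy
  have hy3 : Sc (y ^ 3) := by rw [hy, ← pow_mul]; exact h6
  have hyP : y • P = P := by rw [hy, sq, mul_smul, hP, hP]
  have hyP' : y • P' = P' := by rw [hy, sq, mul_smul, hP', hP']
  have ht : tr (y ^ 3) = tr y ^ 3 - 3 * tr y := by
    have e1 := mul_self_eq y
    have e2 : ((y ^ 3 : SL K) : M2 K) = (tr y ^ 2 - 1) • (y : M2 K) - tr y • 1 := by
      rw [pow_succ, sq, Matrix.SpecialLinearGroup.coe_mul, Matrix.SpecialLinearGroup.coe_mul, e1,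
        sub_mul, smul_mul_assoc, e1, one_mul, smul_sub, smul_smul, sub_smul, one_smul, ← sq]
      abel
    have e3 : tr (y ^ 3) = ((y ^ 3 : SL K) : M2 K) 0 0 + ((y ^ 3 : SL K) : M2 K) 1 1 := rfl
    rw [e3, e2]
    simp [tr]
    ring
  have ht2 : tr y ^ 2 = 4 := by
    have e1 : tr (y ^ 3) ^ 2 = 4 := by
      rcases hy3.tr_eq with h | h <;> rw [h] <;> norm_num
    rw [ht, h3, zero_mul, sub_zero] at e1
    have e2 : (tr y ^ 2 - 4) ^ 3 = 0 := by
      linear_combination e1 + (-4 * tr y ^ 4 + 16 * tr y ^ 2 - 20) * h3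
    exact sub_eq_zero.1 (pow_eq_zero_iff (by norm_num) |>.1 e2)
  obtain ⟨P0, hP0⟩ := (h0 K).2.1 y ⟨hns, ht2⟩
  exact hPP (((hP0 P).1 hyP).trans ((hP0 P').1 hyP').symm)

/-- the characteristic is three -/
lemma d3b_three [Finite K] (h0 : Stmt_D0) (H : Subgroup (SL K)) (h1 : -1 ∈ H)
    (h2 : (2 : K) ≠ 0) (P : PF K) (hP : P ∈ Om H)
    (hU : Set.ncard {h : SL K | h ∈ H ∧ h • P = P ∧ tr h = 2} = 3) : (3 : K) = 0 := by
  classical
  obtain ⟨h, hH, hp, hf⟩ := hP
  have hneg : ∀ Q : PF K, (-1 : SL K) • Q = Q := fun Q => (h0 K).1 _ Q Sc_neg_one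
  obtain ⟨u, huH, huf, hus, hut⟩ : ∃ u ∈ H, u • P = P ∧ ¬ Sc u ∧ tr u = 2 := by
    have e1 : (tr h - 2) * (tr h + 2) = 0 := by linear_combination hp.2
    rcases mul_eq_zero.1 e1 with e2 | e2
    · exact ⟨h, hH, hf, hp.1, sub_eq_zero.1 e2⟩
    · refine ⟨-h, ?_, ?_, ?_, ?_⟩
      · rw [← neg_one_mul]; exact H.mul_mem h1 hH
      · rw [← neg_one_mul, mul_smul, hf, hneg]
      · rw [Sc_neg_iff]; exact hp.1
      · rw [tr_neg]; linear_combination -e2
  by_contra h3
  have hent : ∃ i j, ((u : M2 K) - 1) i j ≠ 0 := by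
    by_contra hall
    push Not at hall
    apply hus
    left
    apply Subtype.ext
    have : (u : M2 K) - 1 = 0 := by
      ext i j; exact hall i j
    exact sub_eq_zero.1 this
  obtain ⟨i0, j0, hij⟩ := hent
  have hinj : Function.Injective (fun i : Fin 4 => u ^ (i : ℕ)) := by
    intro i j hij2
    have e1 : ((u ^ (i : ℕ) : SL K) : M2 K) = ((u ^ (j : ℕ) : SL K) : M2 K) :=
      congrArg (fun x : SL K => (x : M2 K)) hij2
    rw [pow_unip u hut, pow_unip u hut] at e1
    have e1' : ((i : ℕ) : K) • ((u : M2 K) - 1) = ((j : ℕ) : K) • ((u : M2 K) - 1) :=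
      add_left_cancel e1
    have e2 := congrFun (congrFun e1' i0) j0
    rw [Matrix.smul_apply, Matrix.smul_apply, smul_eq_mul, smul_eq_mul] at e2
    have e3 := mul_right_cancel₀ hij e2
    have h1' : (1 : K) ≠ 0 := one_ne_zero
    fin_cases i <;> fin_cases j <;> first
      | rfl
      | (exfalso; simp at e3; done)
      | (exfalso; norm_num at e3; first
          | exact h2 e3
          | exact h3 e3
          | exact h2 e3.symm
          | exact h3 e3.symm
          | (apply h1'; linear_combination e3)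
          | (apply h1'; linear_combination -e3)
          | (apply h2; linear_combination e3)
          | (apply h2; linear_combination -e3))
  have hmem : ∀ i : Fin 4, u ^ (i : ℕ) ∈ {h : SL K | h ∈ H ∧ h • P = P ∧ tr h = 2} := by
    intro i
    refine ⟨H.pow_mem huH _, ?_, ?_⟩
    · generalize (i : ℕ) = n
      induction n with
      | zero => rw [pow_zero, one_smul]
      | succ n ih => rw [pow_succ, mul_smul, huf, ih]
    · have e3 : tr (u ^ (i : ℕ)) = ((u ^ (i : ℕ) : SL K) : M2 K) 0 0 +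
        ((u ^ (i : ℕ) : SL K) : M2 K) 1 1 := rfl
      have e4 : u.1 0 0 + u.1 1 1 = 2 := hut
      rw [e3, pow_unip u hut]
      simp
      linear_combination ((i : ℕ) : K) * e4
  have hle : Set.ncard (Set.range fun i : Fin 4 => u ^ (i : ℕ)) ≤ 3 := by
    rw [← hU]
    refine Set.ncard_le_ncard ?_ (Set.toFinite _)
    rintro _ ⟨i, rfl⟩
    exact hmem i
  rw [← Set.image_univ, Set.ncard_image_of_injective _ hinj, Set.ncard_univ,
    Nat.card_eq_fintype_card, Fintype.card_fin] at hle
  omega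

end C

end Pool.FG.helper46

namespace Pool.FG

open helper46 Matrix
open scoped LinearAlgebra.Projectivization

theorem helper46.stmt_D3b (h0 : Stmt_D0) (hO : Stmt_ORB) (h3 : Stmt_D3a) : Stmt_D3b := by
  classical
  intro K _ _ H h1 hpar
  obtain ⟨z, a, k, r, n, hz, ha, hk, hn, hka, hzE, hOm, htr, hU, hSt, hH, hPar⟩ := h3 K H h1 hpar
  have hzc : Nat.card (zH H) = z := by rw [card_zH H h1, hz]
  have hzpos : 0 < z := by rw [← hzc]; exact Nat.card_pos
  have hz2 : z ≤ 2 := by rw [hz]; exact ncard_Sc_le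
  obtain ⟨P0, hP0⟩ : (Om H).Nonempty := by
    rw [Set.nonempty_iff_ne_empty]
    intro h
    rw [h, Set.ncard_empty] at hOm
    omega
  rcases Nat.eq_zero_or_pos r with hr | hr
  · left
    rw [hr, zero_mul, add_zero] at hn
    obtain ⟨P, hP⟩ := Set.ncard_eq_one.1 (hOm.trans hn)
    refine ⟨P, fun h hh => ?_⟩
    have h4 := om_stable H ⟨h, hh⟩ P (by rw [hP]; rfl)
    rw [hP] at h4
    exact h4
  · obtain ⟨P1, hP1, hN1, hcov⟩ := d3b_eq H h0 hO h1 z a k r n hz ha hk hr hn hOm htr hH hPar
    obtain ⟨e, he⟩ := (stab_two H h0 P1 hP1).1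
    have hi := Subgroup.card_mul_index (MulAction.stabilizer H P1)
    rw [MulAction.index_stabilizer, he, hzc, hH] at hi
    have hen : (MulAction.orbit H P1).ncard * e = n * a * k := by
      apply Nat.eq_of_mul_eq_mul_left hzpos
      calc z * ((MulAction.orbit H P1).ncard * e) = z * e * (MulAction.orbit H P1).ncard := by ring
        _ = z * n * a * k := hi
        _ = z * (n * a * k) := by ring
    rcases d3b_arith a k r n _ e ha hk hr hn hka hN1 hen with
      ⟨_, h2⟩ | ⟨ha3, hr1, hkk⟩ | ⟨ha3, hr3, hk2, he5⟩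
    · -- an orbit of size two
      right; left
      obtain ⟨P, Q, hPQ, hset⟩ := Set.ncard_eq_two.1 h2
      refine ⟨P, Q, hPQ, fun h hh => ?_⟩
      have hst : ∀ R ∈ ({P, Q} : Set (PF K)), h • R ∈ ({P, Q} : Set (PF K)) := by
        intro R hR
        rw [← hset] at hR ⊢
        have e3 : (⟨h, hh⟩ : H) • R ∈ MulAction.orbit H P1 := by
          rw [← MulAction.orbit_eq_iff.2 hR]
          exact MulAction.mem_orbit R (⟨h, hh⟩ : H)
        exact e3
      have e1 := hst P (by simp)
      have e2 := hst Q (by simp)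
      have hinj : h • P ≠ h • Q := fun h4 => hPQ (smul_left_cancel h h4)
      rcases e1 with e1 | e1
      · rcases e2 with e2 | e2
        · exact absurd (e1.trans e2.symm) hinj
        · left; exact ⟨e1, e2⟩
      · rcases e2 with e2 | e2
        · right; exact ⟨e1, e2⟩
        · exact absurd ((Set.mem_singleton_iff.1 e1).trans (Set.mem_singleton_iff.1 e2).symm) hinj
    · -- large
      right; right; right
      refine ⟨a, ha3, by rw [hOm, hn, hr1]; ring, hU, fun P hP => ?_⟩
      rw [hSt P hP]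
      rcases hkk with hkk | hkk
      · rw [← hkk]
        calc a * k ≤ z * (a * k) := Nat.le_mul_of_pos_left _ hzpos
          _ = z * a * k := by ring
      · have hz1 : z ≠ 1 := by
          intro h4
          obtain ⟨c, hc⟩ := hzE h4
          omega
        have hz2' : z = 2 := by omega
        rw [hz2', ← hkk]
        apply le_of_eq
        ring
    · -- small
      right; right; left
      subst ha3
      subst hr3
      subst hk2
      norm_num at hn
      subst hn
      have hz1 : z ≠ 1 := by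
        intro h4
        have := hzE h4
        revert this
        decide
      have hK2 : (2 : K) ≠ 0 := by
        intro h4
        apply hz1
        rw [hz]
        have e1 : {x : SL K | Sc x} = {1} := by
          ext x
          constructor
          · rintro (rfl | rfl)
            · rfl
            · rw [Set.mem_singleton_iff]
              apply Subtype.ext
              ext i j
              fin_cases i <;> fin_cases j <;> simp <;> linear_combination -h4
          · rintro rfl
            exact Sc_one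
        rw [e1, Set.ncard_singleton]
      have hK3 : (3 : K) = 0 := d3b_three h0 H h1 hK2 P0 hP0 (hU P0 hP0)
      refine ⟨by rw [hH]; omega, Or.inr fun h hh => ?_⟩
      by_cases hs : Sc h
      · exact Or.inl (hs.pow 2)
      by_cases hp : Par h
      · exact Or.inr (Or.inl (par_cube hK3 h hp))
      obtain ⟨P, P', hPP, hfix⟩ := (h0 K).2.2 h hs hp
      have hP : h • P = P := (hfix P).2 (Or.inl rfl)
      have hP' : h • P' = P' := (hfix P').2 (Or.inr rfl)
      have horbOm : ∀ R ∈ Om H, MulAction.orbit H R = Om H := by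
        intro R hR
        ext Q
        constructor
        · rintro ⟨g, rfl⟩
          exact om_stable H g R hR
        · intro hQ
          obtain ⟨g, hg, hRQ⟩ := htr R hR Q hQ
          exact ⟨⟨g, hg⟩, hRQ⟩
      have h5 : ∀ R : PF K, h • R = R → R ∈ MulAction.orbit H P1 → Sc (h ^ 5) := by
        intro R hR hRo
        have e1 : MulAction.orbit H R = MulAction.orbit H P1 := MulAction.orbit_eq_iff.2 hRo
        refine stab_pow H h0 5 R ?_ ⟨h, hh⟩ hR
        rw [e1, hN1, hzc, hH]
        ring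
      rcases hcov P ⟨h, hh, hs, hP⟩ with hPO | hPO
      · rcases hcov P' ⟨h, hh, hs, hP'⟩ with hPO' | hPO'
        · left
          refine six_two h0 hK3 h P P' hPP hP hP' ?_
          refine stab_pow H h0 6 P ?_ ⟨h, hh⟩ hP
          rw [horbOm P hPO, hOm, hzc, hH]
          ring
        · exact Or.inr (Or.inr (h5 P' hP' hPO'))
      · exact Or.inr (Or.inr (h5 P hP hPO))

end Pool.FG
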