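import Pool.Agent.Work.MP_65e34f.Basic

/-!
# MP_65e34f_al, block ROL: rank one bounds over a subfield
-/

namespace Pool.FG.helper46

open Matrix Pool.FG

/-! ### counting in `M_2(F)` -/

section F
variable {F : Type} [Field F] [Finite F]

omit [Finite F] in
lemma rol_quad (k b c : F) (hk : k ≠ 0) : Set.ncard {u : F | k * u ^ 2 + b * u + c = 0} ≤ 2 := by
  rcases Set.eq_empty_or_nonempty {u : F | k * u ^ 2 + b * u + c = 0} with h | ⟨u1, h1⟩
  · rw [h]; simp
  · have hsub : {u : F | k * u ^ 2 + b * u + c = 0} ⊆ {u1, -b / k - u1} := by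
      intro u hu
      simp only [Set.mem_ofPred_eq] at h1 hu
      have h2 : (u - u1) * (k * (u + u1) + b) = 0 := by linear_combination hu - h1
      rcases mul_eq_zero.1 h2 with h3 | h3
      · left; linear_combination h3
      · right
        simp only [Set.mem_singleton_iff]
        field_simp
        linear_combination h3
    exact (Set.ncard_le_ncard hsub (Set.toFinite _)).trans
      ((Set.ncard_insert_le _ _).trans (by simp))

/-- a nonscalar matrix -/
def NS (N : M2 F) : Prop := ¬ (N 0 1 = 0 ∧ N 1 0 = 0 ∧ N 0 0 = N 1 1)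

/-- the trace of `N M` -/
def rtr (N M : M2 F) : F := N 0 0 * M 0 0 + N 0 1 * M 1 0 + N 1 0 * M 0 1 + N 1 1 * M 1 1

omit [Field F] in
lemma rol_inj_le {α : Type} {s : Set α} (f : α → F) (hf : Set.InjOn f s) :
    s.ncard ≤ Nat.card F := by
  rw [← Set.ncard_univ]
  exact Set.ncard_le_ncard_of_injOn f (fun a _ => Set.mem_univ _) hf (Set.toFinite _)

omit [Field F] [Finite F] in
lemma rol_ext {M M' : M2 F} (h0 : M 0 0 = M' 0 0) (h1 : M 0 1 = M' 0 1) (h2 : M 1 0 = M' 1 0)
    (h3 : M 1 1 = M' 1 1) : M = M' := by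
  ext i j
  fin_cases i <;> fin_cases j
  · exact h0
  · exact h1
  · exact h2
  · exact h3

lemma rol_C (N : M2 F) (hN : NS N) (δ τ t : F) :
    Set.ncard {M : M2 F | M.det = δ ∧ M 0 0 + M 1 1 = τ ∧ rtr N M = t} ≤ 2 * Nat.card F := by
  by_cases h1 : N 0 1 = 0
  · by_cases h2 : N 1 0 = 0
    · -- diagonal
      have h3 : N 0 0 - N 1 1 ≠ 0 := by
        intro h3
        exact hN ⟨h1, h2, sub_eq_zero.1 h3⟩
      have hsub : {M : M2 F | M.det = δ ∧ M 0 0 + M 1 1 = τ ∧ rtr N M = t} ⊆
          {M : M2 F | M.det = δ ∧ M 0 0 + M 1 1 = τ ∧ rtr N M = t ∧ M 0 1 = 0} ∪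
          {M : M2 F | M.det = δ ∧ M 0 0 + M 1 1 = τ ∧ rtr N M = t ∧ M 0 1 ≠ 0} := by
        rintro M ⟨a, b, c⟩
        by_cases h : M 0 1 = 0
        · left; exact ⟨a, b, c, h⟩
        · right; exact ⟨a, b, c, h⟩
      refine (Set.ncard_le_ncard hsub (Set.toFinite _)).trans ?_
      refine (Set.ncard_union_le _ _).trans ?_
      rw [two_mul]
      refine add_le_add ?_ ?_
      · refine rol_inj_le (fun M => M 1 0) ?_
        rintro M ⟨a, b, c, d⟩ M' ⟨a', b', c', d'⟩ h
        simp only at h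
        simp only [rtr, h1, h2, zero_mul, add_zero] at c c'
        have e0 : M 0 0 = M' 0 0 := by
          apply mul_left_cancel₀ h3
          linear_combination c - c' - N 1 1 * (b - b')
        exact rol_ext e0 (by rw [d, d']) h (by linear_combination b - b' - e0)
      · refine rol_inj_le (fun M => M 0 1) ?_
        rintro M ⟨a, b, c, d⟩ M' ⟨a', b', c', d'⟩ h
        simp only at h
        simp only [rtr, h1, h2, zero_mul, add_zero] at c c'
        rw [Matrix.det_fin_two] at a a'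
        have e0 : M 0 0 = M' 0 0 := by
          apply mul_left_cancel₀ h3
          linear_combination c - c' - N 1 1 * (b - b')
        have e3 : M 1 1 = M' 1 1 := by linear_combination b - b' - e0
        refine rol_ext e0 h ?_ e3
        apply mul_left_cancel₀ d'
        rw [h, e0, e3] at a
        linear_combination a' - a
    · refine (ncard_le_mul_of_fiber (Set.toFinite _) (Set.toFinite Set.univ)
        (fun M : M2 F => M 1 0) (fun _ _ => Set.mem_univ _) 2 ?_).trans (by
          rw [Set.ncard_univ, mul_comm])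
      intro c _
      refine le_trans ?_ (rol_quad (N 1 0) (-(N 1 0) * τ - c * (N 0 0 - N 1 1))
        (c * (t - N 1 1 * τ - N 0 1 * c) + N 1 0 * δ) h2)
      refine Set.ncard_le_ncard_of_injOn (fun M => M 0 0) ?_ ?_ (Set.toFinite _)
      · rintro M ⟨⟨a1, a2, a3⟩, a4⟩
        simp only [rtr] at a3
        change M 1 0 = c at a4
        rw [Matrix.det_fin_two] at a1
        change N 1 0 * M 0 0 ^ 2 + (-(N 1 0) * τ - c * (N 0 0 - N 1 1)) * M 0 0 +
          (c * (t - N 1 1 * τ - N 0 1 * c) + N 1 0 * δ) = 0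
        rw [← a4]
        linear_combination (-(N 1 0)) * a1 + N 1 0 * M 0 0 * a2 - M 1 0 * a3 + M 1 0 * N 1 1 * a2
      · rintro M ⟨⟨a1, a2, a3⟩, a4⟩ M' ⟨⟨b1, b2, b3⟩, b4⟩ h
        simp only [rtr] at a3 b3
        change M 1 0 = c at a4
        change M' 1 0 = c at b4
        change M 0 0 = M' 0 0 at h
        refine rol_ext h ?_ (by rw [a4, b4]) (by linear_combination a2 - b2 - h)
        apply mul_left_cancel₀ h2
        linear_combination a3 - b3 - N 1 1 * (a2 - b2) - (N 0 0 - N 1 1) * h - N 0 1 * (a4 - b4)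
  · refine (ncard_le_mul_of_fiber (Set.toFinite _) (Set.toFinite Set.univ)
      (fun M : M2 F => M 0 1) (fun _ _ => Set.mem_univ _) 2 ?_).trans (by
        rw [Set.ncard_univ, mul_comm])
    intro c _
    refine le_trans ?_ (rol_quad (N 0 1) (-(N 0 1) * τ - c * (N 0 0 - N 1 1))
      (c * (t - N 1 1 * τ - N 1 0 * c) + N 0 1 * δ) h1)
    refine Set.ncard_le_ncard_of_injOn (fun M => M 0 0) ?_ ?_ (Set.toFinite _)
    · rintro M ⟨⟨a1, a2, a3⟩, a4⟩
      simp only [rtr] at a3
      change M 0 1 = c at a4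
      rw [Matrix.det_fin_two] at a1
      change N 0 1 * M 0 0 ^ 2 + (-(N 0 1) * τ - c * (N 0 0 - N 1 1)) * M 0 0 +
        (c * (t - N 1 1 * τ - N 1 0 * c) + N 0 1 * δ) = 0
      rw [← a4]
      linear_combination (-(N 0 1)) * a1 + N 0 1 * M 0 0 * a2 - M 0 1 * a3 + M 0 1 * N 1 1 * a2
    · rintro M ⟨⟨a1, a2, a3⟩, a4⟩ M' ⟨⟨b1, b2, b3⟩, b4⟩ h
      simp only [rtr] at a3 b3
      change M 0 1 = c at a4
      change M' 0 1 = c at b4
      change M 0 0 = M' 0 0 at h
      refine rol_ext h (by rw [a4, b4]) ?_ (by linear_combination a2 - b2 - h)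
      apply mul_left_cancel₀ h1
      linear_combination a3 - b3 - N 1 1 * (a2 - b2) - (N 0 0 - N 1 1) * h - N 1 0 * (a4 - b4)

lemma rol_D (N : M2 F) (hN : NS N) (δ : F) (hδ : δ ≠ 0) :
    Set.ncard {M : M2 F | M.det = δ ∧ M * N = N * M} ≤ 2 * Nat.card F := by
  have hent : ∀ M : M2 F, M * N = N * M → M 0 1 * N 1 0 = N 0 1 * M 1 0 ∧
      N 0 1 * (M 0 0 - M 1 1) = M 0 1 * (N 0 0 - N 1 1) ∧
      N 1 0 * (M 0 0 - M 1 1) = M 1 0 * (N 0 0 - N 1 1) := by
    intro M h
    have h00 := congrFun (congrFun h 0) 0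
    have h01 := congrFun (congrFun h 0) 1
    have h10 := congrFun (congrFun h 1) 0
    simp only [Matrix.mul_apply, Fin.sum_univ_two] at h00 h01 h10
    refine ⟨?_, ?_, ?_⟩
    · linear_combination h00
    · linear_combination h01
    · linear_combination -h10
  by_cases h1 : N 0 1 = 0
  · by_cases h2 : N 1 0 = 0
    · have h3 : N 0 0 - N 1 1 ≠ 0 := by
        intro h3
        exact hN ⟨h1, h2, sub_eq_zero.1 h3⟩
      have hz : ∀ M : M2 F, M * N = N * M → M 0 1 = 0 ∧ M 1 0 = 0 := by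
        intro M hM
        obtain ⟨_, e2, e3⟩ := hent M hM
        rw [h1, zero_mul] at e2
        rw [h2, zero_mul] at e3
        exact ⟨(mul_eq_zero.1 e2.symm).resolve_right h3, (mul_eq_zero.1 e3.symm).resolve_right h3⟩
      refine (rol_inj_le (fun M => M 0 0) ?_).trans (by omega)
      rintro M ⟨a1, a2⟩ M' ⟨b1, b2⟩ h
      change M 0 0 = M' 0 0 at h
      obtain ⟨c1, c2⟩ := hz M a2
      obtain ⟨d1, d2⟩ := hz M' b2
      rw [Matrix.det_fin_two, c1, zero_mul, sub_zero] at a1
      rw [Matrix.det_fin_two, d1, zero_mul, sub_zero] at b1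
      refine rol_ext h (by rw [c1, d1]) (by rw [c2, d2]) ?_
      have h0 : M' 0 0 ≠ 0 := by
        intro h0
        rw [h0, zero_mul] at b1
        exact hδ b1.symm
      apply mul_left_cancel₀ h0
      rw [b1, ← h, a1]
    · refine (ncard_le_mul_of_fiber (Set.toFinite _) (Set.toFinite Set.univ)
        (fun M : M2 F => M 1 0) (fun _ _ => Set.mem_univ _) 2 ?_).trans (by
          rw [Set.ncard_univ, mul_comm])
      intro c _
      refine le_trans ?_ (rol_quad (N 1 0) (-c * (N 0 0 - N 1 1))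
        (-c ^ 2 * N 0 1 - N 1 0 * δ) h2)
      refine Set.ncard_le_ncard_of_injOn (fun M => M 0 0) ?_ ?_ (Set.toFinite _)
      · rintro M ⟨⟨a1, a2⟩, a4⟩
        change M 1 0 = c at a4
        obtain ⟨e1, e2, e3⟩ := hent M a2
        rw [Matrix.det_fin_two] at a1
        change N 1 0 * M 0 0 ^ 2 + (-c * (N 0 0 - N 1 1)) * M 0 0 +
          (-c ^ 2 * N 0 1 - N 1 0 * δ) = 0
        rw [← a4]
        linear_combination N 1 0 * a1 + M 0 0 * e3 + M 1 0 * e1
      · rintro M ⟨⟨a1, a2⟩, a4⟩ M' ⟨⟨b1, b2⟩, b4⟩ h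
        change M 1 0 = c at a4
        change M' 1 0 = c at b4
        change M 0 0 = M' 0 0 at h
        obtain ⟨e1, e2, e3⟩ := hent M a2
        obtain ⟨f1, f2, f3⟩ := hent M' b2
        refine rol_ext h ?_ (by rw [a4, b4]) ?_
        · apply mul_left_cancel₀ h2
          linear_combination e1 - f1 + N 0 1 * (a4 - b4)
        · apply mul_left_cancel₀ h2
          linear_combination N 1 0 * h - e3 + f3 - (N 0 0 - N 1 1) * (a4 - b4)
  · refine (ncard_le_mul_of_fiber (Set.toFinite _) (Set.toFinite Set.univ)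
      (fun M : M2 F => M 0 1) (fun _ _ => Set.mem_univ _) 2 ?_).trans (by
        rw [Set.ncard_univ, mul_comm])
    intro c _
    refine le_trans ?_ (rol_quad (N 0 1) (-c * (N 0 0 - N 1 1))
      (-c ^ 2 * N 1 0 - N 0 1 * δ) h1)
    refine Set.ncard_le_ncard_of_injOn (fun M => M 0 0) ?_ ?_ (Set.toFinite _)
    · rintro M ⟨⟨a1, a2⟩, a4⟩
      change M 0 1 = c at a4
      obtain ⟨e1, e2, e3⟩ := hent M a2
      rw [Matrix.det_fin_two] at a1
      change N 0 1 * M 0 0 ^ 2 + (-c * (N 0 0 - N 1 1)) * M 0 0 +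
        (-c ^ 2 * N 1 0 - N 0 1 * δ) = 0
      rw [← a4]
      linear_combination N 0 1 * a1 + M 0 0 * e2 - M 0 1 * e1
    · rintro M ⟨⟨a1, a2⟩, a4⟩ M' ⟨⟨b1, b2⟩, b4⟩ h
      change M 0 1 = c at a4
      change M' 0 1 = c at b4
      change M 0 0 = M' 0 0 at h
      obtain ⟨e1, e2, e3⟩ := hent M a2
      obtain ⟨f1, f2, f3⟩ := hent M' b2
      refine rol_ext h (by rw [a4, b4]) ?_ ?_
      · apply mul_left_cancel₀ h1
        linear_combination f1 - e1 + N 1 0 * (a4 - b4)
      · apply mul_left_cancel₀ h1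
        linear_combination N 0 1 * h - e2 + f2 - (N 0 0 - N 1 1) * (a4 - b4)

omit [Finite F] in
/-- a fixed nonscalar matrix -/
lemma rol_NS0 : NS (!![0, 1; 0, 0] : M2 F) := by
  intro h
  have := h.1
  simp at this

lemma rol_B (δ τ : F) :
    Set.ncard {M : M2 F | M.det = δ ∧ M 0 0 + M 1 1 = τ} ≤ 2 * Nat.card F ^ 2 := by
  refine (ncard_le_mul_of_fiber (Set.toFinite _) (Set.toFinite Set.univ)
    (fun M : M2 F => rtr !![0, 1; 0, 0] M) (fun _ _ => Set.mem_univ _) (2 * Nat.card F) ?_).trans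
      (by rw [Set.ncard_univ]; apply le_of_eq; ring)
  intro t _
  refine le_trans (Set.ncard_le_ncard ?_ (Set.toFinite _)) (rol_C _ rol_NS0 δ τ t)
  rintro M ⟨⟨a, b⟩, c⟩
  exact ⟨a, b, c⟩

lemma rol_A (δ : F) : Set.ncard {M : M2 F | M.det = δ} ≤ 2 * Nat.card F ^ 3 := by
  refine (ncard_le_mul_of_fiber (Set.toFinite _) (Set.toFinite Set.univ)
    (fun M : M2 F => M 0 0 + M 1 1) (fun _ _ => Set.mem_univ _) (2 * Nat.card F ^ 2) ?_).trans
      (by rw [Set.ncard_univ]; apply le_of_eq; ring)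
  intro t _
  exact rol_B δ t

end F

/-! ### the structure of `HL L g` -/

section K
variable {K : Type} [Field K] (L : Subfield K) (g : GL (Fin 2) K)

/-- `e g M g⁻¹` -/
def rphi (e : K) (M : M2 L) : M2 K :=
  e • ((g : M2 K) * inc L M * ((g⁻¹ : GL (Fin 2) K) : M2 K))

lemma rphi_gg : ((g⁻¹ : GL (Fin 2) K) : M2 K) * (g : M2 K) = 1 := by
  rw [← Units.val_mul, inv_mul_cancel, Units.val_one]

lemma rphi_mul (e e' : K) (N M : M2 L) :
    rphi L g e' N * rphi L g e M = rphi L g (e' * e) (N * M) := by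
  unfold rphi
  rw [inc_mul, smul_mul_smul_comm]
  congr 1
  calc (g : M2 K) * inc L N * ((g⁻¹ : GL (Fin 2) K) : M2 K) *
        ((g : M2 K) * inc L M * ((g⁻¹ : GL (Fin 2) K) : M2 K))
      = (g : M2 K) * inc L N * (((g⁻¹ : GL (Fin 2) K) : M2 K) * (g : M2 K)) * inc L M *
        ((g⁻¹ : GL (Fin 2) K) : M2 K) := by simp only [mul_assoc]
    _ = _ := by rw [rphi_gg]; simp only [mul_one, mul_assoc]

lemma rphi_tr (e : K) (M : M2 L) :
    (rphi L g e M) 0 0 + (rphi L g e M) 1 1 = e * ((M 0 0 + M 1 1 : L) : K) := by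
  have h1 : (rphi L g e M).trace = e * ((M 0 0 + M 1 1 : L) : K) := by
    unfold rphi
    rw [Matrix.trace_smul, Matrix.trace_mul_comm, ← mul_assoc, rphi_gg, one_mul,
      Matrix.trace_fin_two]
    simp [inc]
  rwa [Matrix.trace_fin_two] at h1

lemma rphi_det (e : K) (M : M2 L) : (rphi L g e M).det = e ^ 2 * ((M.det : L) : K) := by
  have h1 : (inc L M).det = ((M.det : L) : K) := by
    rw [Matrix.det_fin_two, Matrix.det_fin_two]
    simp [inc]
  have h2 : (g : M2 K).det * ((g⁻¹ : GL (Fin 2) K) : M2 K).det = 1 := by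
    rw [← Matrix.det_mul, ← Units.val_mul, mul_inv_cancel, Units.val_one, Matrix.det_one]
  unfold rphi
  rw [Matrix.det_smul, Matrix.det_mul, Matrix.det_mul, h1, Fintype.card_fin]
  linear_combination e ^ 2 * ((M.det : L) : K) * h2

lemma rphi_inj {e : K} (he : e ≠ 0) {M M' : M2 L} (h : rphi L g e M = rphi L g e M') : M = M' := by
  unfold rphi at h
  have h1 := smul_right_injective (M2 K) he h
  have h2 : inc L M = inc L M' := by
    have h3 := congrArg (fun X => ((g⁻¹ : GL (Fin 2) K) : M2 K) * X * (g : M2 K)) h1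
    simp only [mul_assoc, rphi_gg, mul_one] at h3
    simpa only [← mul_assoc, rphi_gg, one_mul] using h3
  ext i j
  have h4 := congrFun (congrFun h2 i) j
  simpa [inc] using h4

lemma rphi_scalar (e : K) (N : M2 L) (h : ¬ NS N) :
    rphi L g e N = (e * ((N 0 0 : L) : K)) • (1 : M2 K) := by
  unfold NS at h
  push Not at h
  obtain ⟨h1, h2, h3⟩ := h
  have h4 : inc L N = ((N 0 0 : L) : K) • (1 : M2 K) := by
    ext i j
    fin_cases i <;> fin_cases j <;> simp [inc, h1, h2, ← h3]
  unfold rphi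
  rw [h4, mul_smul_comm, mul_one, smul_mul_assoc, ← Units.val_mul, mul_inv_cancel, Units.val_one,
    smul_smul]

lemma rphi_NS {e : K} {N : M2 L} {a : SL K} (ha : (a : M2 K) = rphi L g e N) (h : ¬ Sc a) :
    NS N := by
  by_contra hN
  rw [rphi_scalar L g e N hN] at ha
  apply h
  rw [Sc_iff, ha]
  simp

variable [Finite K]

lemma rol_pow (x : K) (hx : x ^ (Nat.card L - 1) = 1) : x ∈ L := by
  classical
  have : Fintype K := Fintype.ofFinite K
  have : Fintype L := Fintype.ofFinite L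
  rw [Nat.card_eq_fintype_card] at hx
  have hQ : 1 < Fintype.card L := Fintype.one_lt_card
  set P : Polynomial K := Polynomial.X ^ (Fintype.card L) - Polynomial.X with hP
  have hP0 : P ≠ 0 := FiniteField.X_pow_card_sub_X_ne_zero K hQ
  have hdeg : P.natDegree = Fintype.card L := FiniteField.X_pow_card_sub_X_natDegree_eq K hQ
  set S : Finset K := Finset.univ.map ⟨(Subtype.val : L → K), Subtype.val_injective⟩ with hS
  have hcard : S.card = Fintype.card L := by rw [hS, Finset.card_map, Finset.card_univ]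
  have hsub : S ⊆ P.roots.toFinset := by
    intro y hy
    obtain ⟨l, _, rfl⟩ := Finset.mem_map.1 hy
    rw [Multiset.mem_toFinset, Polynomial.mem_roots hP0]
    have h1 : (l : K) ^ Fintype.card L = l := by
      have := congrArg (Subtype.val : L → K) (FiniteField.pow_card l)
      simpa using this
    simp [hP, Polynomial.IsRoot, h1]
  have heq : S = P.roots.toFinset := by
    apply Finset.eq_of_subset_of_card_le hsub
    calc P.roots.toFinset.card ≤ P.roots.card := Multiset.toFinset_card_le _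
      _ ≤ P.natDegree := Polynomial.card_roots' P
      _ = S.card := by rw [hdeg, hcard]
  have hmem : x ∈ P.roots.toFinset := by
    rw [Multiset.mem_toFinset, Polynomial.mem_roots hP0]
    have h1 : x ^ Fintype.card L = x := by
      calc x ^ Fintype.card L = x ^ (Fintype.card L - 1) * x := by
            rw [← pow_succ]; congr 1; omega
        _ = x := by rw [hx, one_mul]
    simp [hP, Polynomial.IsRoot, h1]
  rw [← heq] at hmem
  obtain ⟨l, _, rfl⟩ := Finset.mem_map.1 hmem
  exact l.2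

lemma rol_cover : ∃ c0 : K, c0 ≠ 0 ∧ ∀ c : K, c ≠ 0 → c ^ 2 ∈ L → c ∈ L ∨ c * c0⁻¹ ∈ L := by
  classical
  by_cases hex : ∃ c0 : K, c0 ≠ 0 ∧ c0 ^ 2 ∈ L ∧ c0 ∉ L
  · obtain ⟨c0, h0, h2, h3⟩ := hex
    have key : ∀ c : K, c ≠ 0 → c ^ 2 ∈ L → c ∉ L → c ^ (Nat.card L - 1) = -1 := by
      intro c hc hc2 hcL
      have : Fintype L := Fintype.ofFinite L
      have h4 : (⟨c ^ 2, hc2⟩ : L) ^ (Fintype.card L - 1) = 1 :=
        FiniteField.pow_card_sub_one_eq_one _ (by
          intro h
          have := congrArg (Subtype.val : L → K) h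
          simp at this
          exact hc this)
      have h5 : (c ^ 2) ^ (Nat.card L - 1) = 1 := by
        rw [Nat.card_eq_fintype_card]
        have := congrArg (Subtype.val : L → K) h4
        simpa using this
      rw [← pow_mul, mul_comm, pow_mul] at h5
      have h6 : (c ^ (Nat.card L - 1) - 1) * (c ^ (Nat.card L - 1) + 1) = 0 := by
        linear_combination h5
      rcases mul_eq_zero.1 h6 with h7 | h7
      · exact absurd (rol_pow L c (sub_eq_zero.1 h7)) hcL
      · exact eq_neg_of_add_eq_zero_left h7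
    refine ⟨c0, h0, fun c hc hc2 => ?_⟩
    by_cases hcL : c ∈ L
    · exact Or.inl hcL
    · right
      apply rol_pow
      rw [mul_pow, inv_pow, key c hc hc2 hcL, key c0 h0 h2 h3]
      norm_num
  · push Not at hex
    exact ⟨1, one_ne_zero, fun c hc hc2 => Or.inl (hex c hc hc2)⟩

lemma rol_red (T : Set (SL K)) (hT : ∀ x ∈ T, x ∈ HL L g) (B : ℕ)
    (h : ∀ e : K, e ≠ 0 → Set.ncard {M : M2 L | ∃ x ∈ T, (x : M2 K) = rphi L g e M} ≤ B) :
    T.ncard ≤ 2 * B := by
  classical
  obtain ⟨c0, hc0, hcov⟩ := rol_cover L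
  have h1 : ∀ e : K, e ≠ 0 → Set.ncard {x | x ∈ T ∧ ∃ M : M2 L, (x : M2 K) = rphi L g e M} ≤ B := by
    intro e he
    refine le_trans ?_ (h e he)
    refine Set.ncard_le_ncard_of_injOn
      (fun x => if H : ∃ M : M2 L, (x : M2 K) = rphi L g e M then Classical.choose H else 0)
      ?_ ?_ (Set.toFinite _)
    · rintro x ⟨hx, H⟩
      simp only [H, dif_pos]
      exact ⟨x, hx, Classical.choose_spec H⟩
    · rintro x ⟨hx, H⟩ x' ⟨hx', H'⟩ hxx
      simp only [H, H', dif_pos] at hxx
      apply Subtype.ext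
      rw [Classical.choose_spec H, Classical.choose_spec H', hxx]
  have hsub : T ⊆ {x | x ∈ T ∧ ∃ M : M2 L, (x : M2 K) = rphi L g 1 M} ∪
      {x | x ∈ T ∧ ∃ M : M2 L, (x : M2 K) = rphi L g c0 M} := by
    intro x hx
    obtain ⟨c, M, hcM⟩ := hT x hx
    have hcM' : (x : M2 K) = rphi L g c M := hcM
    have hdet : c ^ 2 * ((M.det : L) : K) = 1 := by
      rw [← rphi_det, ← hcM']; exact x.2
    have hc : c ≠ 0 := by
      rintro rfl
      simp at hdet
    have hc2 : c ^ 2 ∈ L := by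
      have : c ^ 2 = (((M.det : L) : K))⁻¹ := eq_inv_of_mul_eq_one_left hdet
      rw [this]
      exact L.inv_mem (M.det).2
    rcases hcov c hc hc2 with hL | hL
    · left
      refine ⟨hx, (⟨c, hL⟩ : L) • M, ?_⟩
      rw [hcM']
      unfold rphi
      have : inc L ((⟨c, hL⟩ : L) • M) = c • inc L M := by
        ext i j; simp [inc]
      rw [this, mul_smul_comm, smul_mul_assoc, one_smul]
    · right
      refine ⟨hx, (⟨c * c0⁻¹, hL⟩ : L) • M, ?_⟩
      rw [hcM']
      unfold rphi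
      have : inc L ((⟨c * c0⁻¹, hL⟩ : L) • M) = (c * c0⁻¹) • inc L M := by
        ext i j; simp [inc]
      rw [this, mul_smul_comm, smul_mul_assoc, smul_smul]
      congr 1
      field_simp
  refine (Set.ncard_le_ncard hsub (Set.toFinite _)).trans ((Set.ncard_union_le _ _).trans ?_)
  rw [two_mul]
  exact add_le_add (h1 1 one_ne_zero) (h1 c0 hc0)

/-! ### the five bounds -/

lemma rol_det {e : K} {x : SL K} {M : M2 L} (h : (x : M2 K) = rphi L g e M) :
    e ^ 2 * ((M.det : L) : K) = 1 := by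
  rw [← rphi_det, ← h]; exact x.2

lemma rol_det_eq {e : K} {x x' : SL K} {M M' : M2 L} (h : (x : M2 K) = rphi L g e M)
    (h' : (x' : M2 K) = rphi L g e M') : M.det = M'.det := by
  have h1 := rol_det L g h
  have h2 := rol_det L g h'
  have he : e ^ 2 ≠ 0 := left_ne_zero_of_mul_eq_one h1
  apply Subtype.ext
  apply mul_left_cancel₀ he
  rw [h1, h2]

lemma rol_det_ne {e : K} {x : SL K} {M : M2 L} (h : (x : M2 K) = rphi L g e M) :
    M.det ≠ 0 := by
  intro h0
  have h1 := rol_det L g h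
  rw [h0] at h1
  simp at h1

lemma rol_tr {e : K} {x : SL K} {M : M2 L} (h : (x : M2 K) = rphi L g e M) :
    tr x = e * ((M 0 0 + M 1 1 : L) : K) := by
  rw [← rphi_tr, ← h]; rfl

lemma rol_tr2 {e e' : K} {x a : SL K} {M N : M2 L} (h : (x : M2 K) = rphi L g e M)
    (h' : (a : M2 K) = rphi L g e' N) : tr (a * x) = e' * e * ((rtr N M : L) : K) := by
  have h1 : ((a * x : SL K) : M2 K) = rphi L g (e' * e) (N * M) := by
    rw [Matrix.SpecialLinearGroup.coe_mul, h, h', rphi_mul]
  rw [rol_tr L g h1]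
  congr 2
  simp only [Matrix.mul_apply, Fin.sum_univ_two, rtr]
  ring

end K

end Pool.FG.helper46

namespace Pool.FG

open helper46

theorem helper46.stmt_ROL : Stmt_ROL := by
  intro K _ _ L g
  have hQ : 1 ≤ Nat.card L := Nat.one_le_iff_ne_zero.2 Nat.card_pos.ne'
  refine ⟨?_, ?_, ?_, ?_, ?_⟩
  · -- order
    have h1 : Nat.card (HL L g) = Set.ncard {x : SL K | x ∈ HL L g} := rfl
    rw [h1]
    refine (rol_red L g {x : SL K | x ∈ HL L g} (fun x hx => hx) (2 * Nat.card L ^ 3) ?_).trans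
      (by omega)
    intro e he
    rcases Set.eq_empty_or_nonempty {M : M2 L | ∃ x ∈ {x : SL K | x ∈ HL L g},
      (x : M2 K) = rphi L g e M} with h | ⟨M0, x0, hx0, hM0⟩
    · rw [h]; simp
    · refine (Set.ncard_le_ncard ?_ (Set.toFinite _)).trans (rol_A M0.det)
      rintro M ⟨x, hx, hM⟩
      exact rol_det_eq L g hM hM0
  · -- trace
    intro τ
    refine (rol_red L g _ (fun x hx => hx.1) (2 * Nat.card L ^ 2) ?_).trans (by omega)
    intro e he
    rcases Set.eq_empty_or_nonempty {M : M2 L | ∃ x ∈ {x : SL K | x ∈ HL L g ∧ tr x = τ},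
      (x : M2 K) = rphi L g e M} with h | ⟨M0, x0, hx0, hM0⟩
    · rw [h]; simp
    · refine (Set.ncard_le_ncard ?_ (Set.toFinite _)).trans (rol_B M0.det (M0 0 0 + M0 1 1))
      rintro M ⟨x, hx, hM⟩
      refine ⟨rol_det_eq L g hM hM0, ?_⟩
      apply Subtype.ext
      apply mul_left_cancel₀ he
      rw [← rol_tr L g hM, ← rol_tr L g hM0, hx.2, hx0.2]
  · -- two traces
    intro a ha hSc τ t
    obtain ⟨e', N, haN⟩ := ha
    have haN' : (a : M2 K) = rphi L g e' N := haN
    have hNS := rphi_NS L g haN' hSc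
    have he' : e' ≠ 0 := by
      rintro rfl
      have := rol_det L g haN'
      simp at this
    refine (rol_red L g _ (fun x hx => hx.1) (2 * Nat.card L) ?_).trans (by omega)
    intro e he
    rcases Set.eq_empty_or_nonempty {M : M2 L | ∃ x ∈ {x : SL K | x ∈ HL L g ∧ tr x = τ ∧
      tr (a * x) = t}, (x : M2 K) = rphi L g e M} with h | ⟨M0, x0, hx0, hM0⟩
    · rw [h]; simp
    · refine (Set.ncard_le_ncard ?_ (Set.toFinite _)).trans
        (rol_C N hNS M0.det (M0 0 0 + M0 1 1) (rtr N M0))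
      rintro M ⟨x, hx, hM⟩
      refine ⟨rol_det_eq L g hM hM0, ?_, ?_⟩
      · apply Subtype.ext
        apply mul_left_cancel₀ he
        rw [← rol_tr L g hM, ← rol_tr L g hM0, hx.2.1, hx0.2.1]
      · apply Subtype.ext
        apply mul_left_cancel₀ (mul_ne_zero he' he)
        rw [← rol_tr2 L g hM haN', ← rol_tr2 L g hM0 haN', hx.2.2, hx0.2.2]
  · -- commutant
    intro a ha hSc c hc
    obtain ⟨e', N, haN⟩ := ha
    have haN' : (a : M2 K) = rphi L g e' N := haN
    have hNS := rphi_NS L g haN' hSc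
    have he' : e' ≠ 0 := by
      rintro rfl
      have := rol_det L g haN'
      simp at this
    rcases Set.eq_empty_or_nonempty {b : SL K | b ∈ HL L g ∧ b * a = c * b} with h | ⟨b0, hb0, hb0'⟩
    · rw [h]; simp
    · have h1 : Set.ncard {b : SL K | b ∈ HL L g ∧ b * a = c * b} ≤
          Set.ncard {y : SL K | y ∈ HL L g ∧ y * a = a * y} := by
        refine Set.ncard_le_ncard_of_injOn (fun b => b0⁻¹ * b) ?_ ?_ (Set.toFinite _)
        · rintro b ⟨hb, hb'⟩
          refine ⟨(HL L g).mul_mem ((HL L g).inv_mem hb0) hb, ?_⟩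
          have h2 : a = b0⁻¹ * c * b0 := by rw [mul_assoc, ← hb0']; group
          calc b0⁻¹ * b * a = b0⁻¹ * (c * b) := by rw [mul_assoc, hb']
            _ = b0⁻¹ * c * b0 * (b0⁻¹ * b) := by group
            _ = a * (b0⁻¹ * b) := by rw [← h2]
        · intro b _ b' _ hbb
          exact mul_left_cancel hbb
      refine h1.trans ?_
      refine (rol_red L g _ (fun x hx => hx.1) (2 * Nat.card L) ?_).trans (by omega)
      intro e he
      rcases Set.eq_empty_or_nonempty {M : M2 L | ∃ x ∈ {y : SL K | y ∈ HL L g ∧ y * a = a * y},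
        (x : M2 K) = rphi L g e M} with h | ⟨M0, x0, hx0, hM0⟩
      · rw [h]; simp
      · refine (Set.ncard_le_ncard ?_ (Set.toFinite _)).trans
          (rol_D N hNS M0.det (rol_det_ne L g hM0))
        rintro M ⟨x, hx, hM⟩
        refine ⟨rol_det_eq L g hM hM0, ?_⟩
        have h3 := congrArg (fun y : SL K => (y : M2 K)) hx.2
        simp only [Matrix.SpecialLinearGroup.coe_mul] at h3
        rw [hM, haN', rphi_mul, rphi_mul, mul_comm e' e] at h3
        exact rphi_inj L g (mul_ne_zero he he') h3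
  · -- the last one
    intro z hz hSc
    obtain ⟨f, N, hzN⟩ := hz
    have hzN' : (z : M2 K) = rphi L g f N := hzN
    have hNS := rphi_NS L g hzN' hSc
    have hf : f ≠ 0 := by
      rintro rfl
      have := rol_det L g hzN'
      simp at this
    refine (rol_red L g _ (fun x hx => hx.1) (2 * Nat.card L ^ 2) ?_).trans (by omega)
    intro e he
    refine (ncard_le_mul_of_fiber (Set.toFinite _) (Set.toFinite Set.univ)
      (fun M : M2 L => M 0 0 + M 1 1) (fun _ _ => Set.mem_univ _) (2 * Nat.card L) ?_).trans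
        (by rw [Set.ncard_univ]; apply le_of_eq; ring)
    intro τ _
    rcases Set.eq_empty_or_nonempty {M : M2 L | M ∈ {M : M2 L | ∃ x ∈ {a : SL K | a ∈ HL L g ∧
      tr (a⁻¹ * z) = tr a}, (x : M2 K) = rphi L g e M} ∧ M 0 0 + M 1 1 = τ} with
      h | ⟨M0, ⟨x0, hx0, hM0⟩, hτ0⟩
    · rw [h]; simp
    · refine (Set.ncard_le_ncard ?_ (Set.toFinite _)).trans
        (rol_C N hNS M0.det τ (rtr N M0))
      rintro M ⟨⟨x, hx, hM⟩, hτ⟩
      refine ⟨rol_det_eq L g hM hM0, hτ, ?_⟩
      have key : ∀ (x : SL K) (M : M2 L), tr (x⁻¹ * z) = tr x → (x : M2 K) = rphi L g e M →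
          M 0 0 + M 1 1 = τ → f * e * ((rtr N M : L) : K) = (e * (τ : K)) * (tr z - 1) := by
        intro x M h1 h2 h3
        rw [tr_inv_mul, tr_mul_comm, rol_tr2 L g h2 hzN', rol_tr L g h2, h3] at h1
        linear_combination -h1
      apply Subtype.ext
      apply mul_left_cancel₀ (mul_ne_zero hf he)
      rw [key x M hx.2 hM hτ, key x0 M0 hx0.2 hM0 hτ0]

end Pool.FG
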